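import Mathlib
import Pool.Agent.Lib.MP_60e7f9_lc.Model2
import Pool.Agent.Lib.MP_60e7f9_lc.Prov.Bridge
import Pool.Agent.Lib.MP_60e7f9_lc.Prov.Sanity

set_option autoImplicit false

namespace Pool.Agent.Results.MP_60e7f9_lc.DualProv

open Filter Pool.Agent.Lib.Common.Forcing Pool.Agent.Lib.MP_60e7f9_lc

/-- Sanity check: the proof system does not prove falsity. -/
theorem consistent : ¬ Prov.Prf [] Fm.bot := Prov.not_prf_bot

theorem result :
    (∃ M : ZFSet.{0}, IsCTM M ∧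
      (∃ b : ℕ → ℕ, code b ∈ M ∧ (∀ k, 2 ≤ b k) ∧ Tendsto b atTop atTop ∧
        ¬ Summable fun k => 1 / (b k : ℝ)) ∧
      ∀ b : ℕ → ℕ, code b ∈ M → (∀ k, 1 ≤ b k) → Tendsto b atTop atTop →
        (¬ Summable fun k => 1 / (b k : ℝ)) → CovLtDeq M b) ∧
    Prov.Prf [] (Prov.dLeCov 0) := by
  refine ⟨?_, Prov.prf_dLeCov⟩
  obtain ⟨M, a, c, d⟩ := Dual.exists_model
  refine ⟨M, a, ⟨_, c, fun k => Nat.le_add_left _ _, tendsto_add_atTop_nat 2, fun h => ?_⟩,
    fun b e h h' _ => d b e h h'⟩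
  exact Real.not_summable_one_div_natCast ((summable_nat_add_iff 2).1 h)

end Pool.Agent.Results.MP_60e7f9_lc.DualProv
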