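import Mathlib
import Pool.Agent.Lib.MP_60e7f9_lc.Model
import Pool.Agent.Lib.MP_60e7f9_lc.ZFC

set_option autoImplicit false

namespace Pool.Agent.Results.MP_60e7f9_lc.Full

open Filter Pool.Agent.Lib.Common.Forcing Pool.Agent.Lib.MP_60e7f9_lc

theorem result :
    (∃ M : ZFSet.{0}, IsCTM M ∧
      (∃ b : ℕ → ℕ, code b ∈ M ∧ (∀ k, 2 ≤ b k) ∧ Tendsto b atTop atTop ∧
        ¬ Summable fun k => 1 / (b k : ℝ)) ∧
      ∀ b : ℕ → ℕ, code b ∈ M → (∀ k, 1 ≤ b k) → Tendsto b atTop atTop →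
        (¬ Summable fun k => 1 / (b k : ℝ)) → BeqLtNonE M b) ∧
    ∀ b : ℕ → ℕ, (∀ k, 1 ≤ b k) → (∀ᶠ k in atTop, 2 ≤ b k) → ¬ Tendsto b atTop atTop →
      nonE ≤ bEq b := by
  refine ⟨?_, fun b h1 h2 h3 => nonE_le_bEq h1 h2 h3⟩
  obtain ⟨M, a, c, d⟩ := exists_model
  refine ⟨M, a, ⟨_, c, fun k => Nat.le_add_left _ _, tendsto_add_atTop_nat 2, fun h => ?_⟩,
    fun b e _ h _ => d b e h⟩
  exact Real.not_summable_one_div_natCast ((summable_nat_add_iff 2).1 h)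

end Pool.Agent.Results.MP_60e7f9_lc.Full
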