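import Mathlib
import Pool.Agent.Lib.MP_60e7f9_lc.Model
import Pool.Agent.Lib.MP_60e7f9_lc.Prov.Bridge
import Pool.Agent.Lib.MP_60e7f9_lc.Prov.Sanity

set_option autoImplicit false

namespace Pool.Agent.Results.MP_60e7f9_lc.FullProv

open Filter Pool.Agent.Lib.Common.Forcing Pool.Agent.Lib.MP_60e7f9_lc

/-- Sanity check: the proof system does not prove falsity. -/
theorem consistent : ¬ Prov.Prf [] Fm.bot := Prov.not_prf_bot

theorem result :
    (∃ M : ZFSet.{0}, IsCTM M ∧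
      (∃ b : ℕ → ℕ, code b ∈ M ∧ (∀ k, 2 ≤ b k) ∧ Tendsto b atTop atTop ∧
        ¬ Summable fun k => 1 / (b k : ℝ)) ∧
      ∀ b : ℕ → ℕ, code b ∈ M → (∀ k, 1 ≤ b k) → Tendsto b atTop atTop →
        (¬ Summable fun k => 1 / (b k : ℝ)) → BeqLtNonE M b) ∧
    Prov.Prf [] (Prov.nonLeB 0) := by
  refine ⟨?_, Prov.prf_nonLeB⟩
  obtain ⟨M, a, c, d⟩ := exists_model
  refine ⟨M, a, ⟨_, c, fun k => Nat.le_add_left _ _, tendsto_add_atTop_nat 2, fun h => ?_⟩,
    fun b e _ h _ => d b e h⟩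
  exact Real.not_summable_one_div_natCast ((summable_nat_add_iff 2).1 h)

end Pool.Agent.Results.MP_60e7f9_lc.FullProv
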